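import Mathlib

set_option autoImplicit false

namespace Pool.Agent.Helper70.TypedPerm

open Cardinal

/-- the complement of a countable set of reals has the size of the continuum -/
lemma mk_compl_countable (S : Set ℝ) (hS : S.Countable) : #(Sᶜ : Set ℝ) = #ℝ := by
  apply Cardinal.mk_compl_of_infinite
  have h1 : #S ≤ ℵ₀ := hS.le_aleph0
  have h2 : ℵ₀ < #ℝ := by
    rw [Cardinal.mk_real]
    exact Cardinal.aleph0_lt_continuum
  exact lt_of_le_of_lt h1 h2

/-- a partial injection of `ℝ` with countable domain extends to a permutation -/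
lemma exists_perm_real (S : Set ℝ) (hS : S.Countable) (f : ℝ → ℝ) (hf : Set.InjOn f S) :
    ∃ e : Equiv.Perm ℝ, ∀ x ∈ S, e x = f x := by
  classical
  have hT : (f '' S).Countable := hS.image f
  have hcard : #(Sᶜ : Set ℝ) = #((f '' S)ᶜ : Set ℝ) := by
    rw [mk_compl_countable S hS, mk_compl_countable _ hT]
  obtain ⟨e2⟩ := Cardinal.eq.1 hcard
  let e1 : S ≃ (f '' S : Set ℝ) := Equiv.Set.imageOfInjOn f S hf
  refine ⟨(Equiv.Set.sumCompl S).symm.trans
    ((Equiv.sumCongr e1 e2).trans (Equiv.Set.sumCompl (f '' S))), ?_⟩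
  intro x hx
  simp only [Equiv.trans_apply]
  rw [Equiv.Set.sumCompl_symm_apply_of_mem hx]
  simp [e1, Equiv.Set.imageOfInjOn]

/-- a real function avoiding a given countable set, injective -/
lemma exists_avoid (T : Set ℝ) (hT : T.Countable) :
    ∃ h : ℝ → ℝ, Function.Injective h ∧ ∀ x, h x ∉ T := by
  have hcard : #ℝ = #(Tᶜ : Set ℝ) := (mk_compl_countable T hT).symm
  obtain ⟨e⟩ := Cardinal.eq.1 hcard
  exact ⟨fun x => (e x : ℝ), fun a b hab => e.injective (Subtype.ext hab), fun x => (e x).2⟩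

lemma fibre_countable (D : Set (ℕ × ℚ × ℝ)) (hD : D.Countable) (n : ℕ) (q : ℚ) :
    {x : ℝ | (n, q, x) ∈ D}.Countable := by
  have : Function.Injective (fun x : ℝ => ((n, q, x) : ℕ × ℚ × ℝ)) := by
    intro a b hab
    simpa using hab
  exact hD.preimage this

/-- a typed partial injection with countable domain extends to a typed permutation -/
theorem exists_ext (D : Set (ℕ × ℚ × ℝ)) (hD : D.Countable) (r : ℕ → ℚ)
    (φ : ℕ × ℚ × ℝ → ℕ × ℚ × ℝ) (hφ : Set.InjOn φ D)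
    (ht : ∀ x ∈ D, (φ x).1 = x.1 ∧ (φ x).2.1 = x.2.1 + r x.1) :
    ∃ g : Equiv.Perm (ℕ × ℚ × ℝ), (∀ x, (g x).1 = x.1 ∧ (g x).2.1 = x.2.1 + r x.1) ∧
      ∀ x ∈ D, g x = φ x := by
  have key : ∀ n q, ∃ e : Equiv.Perm ℝ, ∀ x : ℝ, (n, q, x) ∈ D → e x = (φ (n, q, x)).2.2 := by
    intro n q
    obtain ⟨e, he⟩ := exists_perm_real {x : ℝ | (n, q, x) ∈ D} (fibre_countable D hD n q)
      (fun x => (φ (n, q, x)).2.2) (by
        intro a ha b hb hab
        have h := hφ ha hb (by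
          apply Prod.ext
          · rw [(ht _ ha).1, (ht _ hb).1]
          · apply Prod.ext
            · rw [(ht _ ha).2, (ht _ hb).2]
            · exact hab)
        simpa using h)
    exact ⟨e, fun x hx => he x hx⟩
  choose e he using key
  refine ⟨⟨fun x => (x.1, x.2.1 + r x.1, e x.1 x.2.1 x.2.2),
    fun y => (y.1, y.2.1 - r y.1, (e y.1 (y.2.1 - r y.1)).symm y.2.2), ?_, ?_⟩, ?_, ?_⟩
  · rintro ⟨n, q, x⟩
    simp
  · rintro ⟨n, q, x⟩
    simp
  · rintro ⟨n, q, x⟩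
    simp
  · rintro ⟨n, q, x⟩ hx
    obtain ⟨h1, h2⟩ := ht _ hx
    apply Prod.ext
    · exact h1.symm
    · apply Prod.ext
      · exact h2.symm
      · exact he n q x hx

/-- typed fresh copies -/
theorem exists_fresh (D F : Set (ℕ × ℚ × ℝ)) (_hD : D.Countable) (hF : F.Countable) (r : ℕ → ℚ) :
    ∃ φ : ℕ × ℚ × ℝ → ℕ × ℚ × ℝ, Set.InjOn φ D ∧
      (∀ x ∈ D, (φ x).1 = x.1 ∧ (φ x).2.1 = x.2.1 + r x.1) ∧ ∀ x ∈ D, φ x ∉ F := by
  have key : ∀ n : ℕ, ∀ q : ℚ, ∃ h : ℝ → ℝ, Function.Injective h ∧ ∀ x, h x ∉ {y : ℝ | (n, q, y) ∈ F} :=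
    fun n q => exists_avoid _ (fibre_countable F hF n q)
  choose h hinj hav using key
  refine ⟨fun x => (x.1, x.2.1 + r x.1, h x.1 (x.2.1 + r x.1) x.2.2), ?_, ?_, ?_⟩
  · rintro ⟨n, q, x⟩ _ ⟨n', q', x'⟩ _ hxy
    simp only [Prod.mk.injEq] at hxy
    obtain ⟨h1, h2, h3⟩ := hxy
    subst h1
    have hq : q = q' := by linarith
    subst hq
    have := hinj _ _ h3
    simp [this]
  · intro x _
    exact ⟨rfl, rfl⟩
  · rintro ⟨n, q, x⟩ _ hx
    exact hav n (q + r n) x hx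

end Pool.Agent.Helper70.TypedPerm
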