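import Pool.Agent.Helper47.Manh.Main

set_option autoImplicit false
set_option linter.unusedSectionVars false

namespace Pool.Agent.Helper70.ManhUpper

open Pool.Agent.Helper47.Manh

section
variable {N T : ℕ} [NeZero N]

/-! ### second moments of sums -/

/-- sums of pairwise uncorrelated functions -/
lemma Av_sq_sum (n : ℕ) (X : ℕ → Om N T → ℝ)
    (h : ∀ s1 s2, s1 < s2 → s2 < n → Av (fun ω => X s1 ω * X s2 ω) = 0) :
    Av (fun ω => (∑ s ∈ Finset.range n, X s ω) ^ 2) =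
      ∑ s ∈ Finset.range n, Av (fun ω => X s ω ^ 2) := by
  induction n with
  | zero => simp [Av_const]
  | succ n ih =>
    rw [Finset.sum_range_succ, ← ih fun s1 s2 h1 h2 => h s1 s2 h1 (by omega)]
    have e : ∀ ω : Om N T, (∑ s ∈ Finset.range (n + 1), X s ω) ^ 2 =
        ((∑ s ∈ Finset.range n, X s ω) ^ 2 + X n ω ^ 2) +
          2 * ∑ s ∈ Finset.range n, X s ω * X n ω := by
      intro ω
      rw [Finset.sum_range_succ, ← Finset.sum_mul]
      ring
    rw [Av_congr _ _ e, Av_add, Av_add, Av_mul_left, Av_sum]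
    rw [Finset.sum_eq_zero fun s hs => h s n (Finset.mem_range.1 hs) (by omega)]
    ring

/-- linear forms in the row signs -/
lemma Av_lin_sq (R : ℕ) (a : ℕ → ℝ) (e : ℕ → ZMod N)
    (he : ∀ i < R, ∀ j < R, e i = e j → i = j) :
    Av (fun ω : Om N T => (∑ i ∈ Finset.range R, a i * sr ω (e i)) ^ 2) =
      ∑ i ∈ Finset.range R, a i ^ 2 := by
  rw [Av_sq_sum R (fun i ω => a i * sr ω (e i))]
  · refine Finset.sum_congr rfl fun i _ => ?_
    have : ∀ ω : Om N T, (a i * sr ω (e i)) ^ 2 = a i ^ 2 := by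
      intro ω
      rw [mul_pow, sq (sr ω (e i)), sr_sq, mul_one]
    rw [Av_congr _ _ this, Av_const]
  · intro s1 s2 h1 h2
    have : ∀ ω : Om N T, a s1 * sr ω (e s1) * (a s2 * sr ω (e s2)) =
        (a s1 * a s2) * (sr ω (e s1) * sr ω (e s2)) := by
      intro ω; ring
    rw [Av_congr _ _ this, Av_mul_left, Av_sr_mul, if_neg, mul_zero]
    intro h
    have := he s1 (by omega) s2 h2 h
    omega

/-- Jensen for finite averages -/
lemma Av_avg_sq (R : ℕ) (X : ℕ → Om N T → ℝ) (B : ℝ)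
    (h : ∀ i < R, Av (fun ω => X i ω ^ 2) ≤ B) :
    Av (fun ω => (∑ i ∈ Finset.range R, X i ω) ^ 2) ≤ (R : ℝ) ^ 2 * B := by
  have h1 : ∀ ω : Om N T, (∑ i ∈ Finset.range R, X i ω) ^ 2 ≤
      (R : ℝ) * ∑ i ∈ Finset.range R, X i ω ^ 2 := by
    intro ω
    have := sq_sum_le_card_mul_sum_sq (s := Finset.range R) (f := fun i => X i ω)
    rwa [Finset.card_range] at this
  refine (Av_mono _ _ h1).trans ?_
  rw [Av_mul_left, Av_sum]
  have h2 : ∑ i ∈ Finset.range R, Av (fun ω => X i ω ^ 2) ≤ ∑ _i ∈ Finset.range R, B :=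
    Finset.sum_le_sum fun i hi => h i (Finset.mem_range.1 hi)
  rw [Finset.sum_const, Finset.card_range, nsmul_eq_mul] at h2
  calc (R : ℝ) * _ ≤ (R : ℝ) * ((R : ℝ) * B) := mul_le_mul_of_nonneg_left h2 (by positivity)
    _ = _ := by ring

lemma Av_add_sq_le (F G : Om N T → ℝ) :
    Av (fun ω => (F ω + G ω) ^ 2) ≤ 2 * (Av (fun ω => F ω ^ 2) + Av (fun ω => G ω ^ 2)) := by
  rw [← Av_add, ← Av_mul_left]
  refine Av_mono _ _ fun ω => ?_
  nlinarith [sq_nonneg (F ω - G ω)]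

lemma Av_sub_sq_le (F G : Om N T → ℝ) :
    Av (fun ω => (F ω - G ω) ^ 2) ≤ 2 * (Av (fun ω => F ω ^ 2) + Av (fun ω => G ω ^ 2)) := by
  rw [← Av_add, ← Av_mul_left]
  refine Av_mono _ _ fun ω => ?_
  nlinarith [sq_nonneg (F ω + G ω)]

/-! ### the test function -/

/-- weights -/
noncomputable def wt (R i : ℕ) : ℝ := ((R : ℝ) - 1 - i) / R

/-- forward average -/
noncomputable def UU (R : ℕ) (h : ZMod N → ℝ) (k : ZMod N) : ℝ :=
  (∑ i ∈ Finset.range R, h (k + (i : ZMod N))) / R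

/-- backward average -/
noncomputable def UB (R : ℕ) (h : ZMod N → ℝ) (k : ZMod N) : ℝ :=
  (∑ i ∈ Finset.range R, h (k - (i : ZMod N))) / R

/-- forward potential -/
noncomputable def VV (R : ℕ) (h : ZMod N → ℝ) (k : ZMod N) : ℝ :=
  ∑ i ∈ Finset.range R, wt R i * h (k + (i : ZMod N))

/-- backward potential -/
noncomputable def VB (R : ℕ) (h : ZMod N → ℝ) (k : ZMod N) : ℝ :=
  ∑ i ∈ Finset.range R, wt R i * h (k - (i : ZMod N))

lemma abel_sum (R : ℕ) (x : ℕ → ℝ) :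
    ∑ i ∈ Finset.range R, ((R : ℝ) - 1 - i) * (x i - x (i + 1)) =
      R * x 0 - ∑ i ∈ Finset.range R, x i := by
  induction R with
  | zero => simp
  | succ R ih =>
    have e : ∀ i ∈ Finset.range (R + 1), (((R + 1 : ℕ) : ℝ) - 1 - i) * (x i - x (i + 1)) =
        ((R : ℝ) - 1 - i) * (x i - x (i + 1)) + (x i - x (i + 1)) := by
      intro i _; push_cast; ring
    rw [Finset.sum_congr rfl e, Finset.sum_add_distrib, Finset.sum_range_sub',
      Finset.sum_range_succ, Finset.sum_range_succ, ih]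
    push_cast
    ring

lemma abel_wt (R : ℕ) (hR : 0 < R) (x : ℕ → ℝ) :
    ∑ i ∈ Finset.range R, wt R i * (x i - x (i + 1)) =
      x 0 - (∑ i ∈ Finset.range R, x i) / R := by
  have hR' : (R : ℝ) ≠ 0 := by positivity
  have h := abel_sum R x
  have e : ∀ i ∈ Finset.range R, wt R i * (x i - x (i + 1)) =
      (((R : ℝ) - 1 - i) * (x i - x (i + 1))) / R := by
    intro i _; unfold wt; ring
  rw [Finset.sum_congr rfl e, ← Finset.sum_div, h]
  field_simp

lemma VV_step (R : ℕ) (hR : 0 < R) (h : ZMod N → ℝ) (k : ZMod N) :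
    VV R h k - VV R h (k + 1) = h k - UU R h k := by
  have := abel_wt R hR (fun i => h (k + (i : ZMod N)))
  unfold VV UU
  rw [← Finset.sum_sub_distrib]
  have e : ∀ i ∈ Finset.range R, wt R i * h (k + (i : ZMod N)) - wt R i * h (k + 1 + (i : ZMod N))
      = wt R i * (h (k + (i : ZMod N)) - h (k + ((i + 1 : ℕ) : ZMod N))) := by
    intro i _
    have : k + 1 + (i : ZMod N) = k + ((i + 1 : ℕ) : ZMod N) := by push_cast; ring
    rw [this]; ring
  rw [Finset.sum_congr rfl e, this]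
  simp

lemma VB_step (R : ℕ) (hR : 0 < R) (h : ZMod N → ℝ) (k : ZMod N) :
    VB R h k - VB R h (k - 1) = h k - UB R h k := by
  have := abel_wt R hR (fun i => h (k - (i : ZMod N)))
  unfold VB UB
  rw [← Finset.sum_sub_distrib]
  have e : ∀ i ∈ Finset.range R, wt R i * h (k - (i : ZMod N)) - wt R i * h (k - 1 - (i : ZMod N))
      = wt R i * (h (k - (i : ZMod N)) - h (k - ((i + 1 : ℕ) : ZMod N))) := by
    intro i _
    have : k - 1 - (i : ZMod N) = k - ((i + 1 : ℕ) : ZMod N) := by push_cast; ring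
    rw [this]; ring
  rw [Finset.sum_congr rfl e, this]
  simp

lemma VB_sub (R : ℕ) (h g : ZMod N → ℝ) (k : ZMod N) :
    VB R (fun l => h l - g l) k = VB R h k - VB R g k := by
  unfold VB
  rw [← Finset.sum_sub_distrib]
  exact Finset.sum_congr rfl fun i _ => by ring

lemma UB_sub (R : ℕ) (h g : ZMod N → ℝ) (k : ZMod N) :
    UB R (fun l => h l - g l) k = UB R h k - UB R g k := by
  unfold UB
  rw [← sub_div, ← Finset.sum_sub_distrib]

lemma VB_shift (R : ℕ) (h : ZMod N → ℝ) (k a : ZMod N) :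
    VB R (fun l => h (l + a)) k = VB R h (k + a) := by
  unfold VB
  exact Finset.sum_congr rfl fun i _ => by
    have : k - (i : ZMod N) + a = k + a - (i : ZMod N) := by ring
    simp only [this]

/-- the potential -/
noncomputable def FF (R : ℕ) (h : ZMod N → ℝ) (k : ZMod N) : ℝ := 2 * VB R (VV R h) k

/-- the gradient -/
noncomputable def GG (R : ℕ) (h : ZMod N → ℝ) (k : ZMod N) : ℝ :=
  VB R (fun l => h l - UU R h l) k

lemma FF_step (R : ℕ) (hR : 0 < R) (h : ZMod N → ℝ) (k : ZMod N) :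
    FF R h k - FF R h (k + 1) = 2 * GG R h k := by
  unfold FF GG
  have e : (fun l => h l - UU R h l) = fun l => VV R h l - VV R h (l + 1) := by
    funext l; rw [VV_step R hR]
  rw [e, VB_sub, VB_shift]
  ring

lemma GG_step (R : ℕ) (hR : 0 < R) (h : ZMod N → ℝ) (k : ZMod N) :
    GG R h k - GG R h (k - 1) = h k - (UU R h k + UB R h k - UB R (UU R h) k) := by
  unfold GG
  rw [VB_step R hR, UB_sub]
  ring

/-- discrete Poisson equation -/
lemma FF_poisson (R : ℕ) (hR : 0 < R) (h : ZMod N → ℝ) :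
    FF R h 0 - (FF R h 1 + FF R h (-1)) / 2 =
      h 0 - (UU R h 0 + UB R h 0 - UB R (UU R h) 0) := by
  have h1 := FF_step R hR h 0
  have h2 := FF_step R hR h (-1)
  have h3 := GG_step R hR h 0
  rw [zero_add] at h1
  rw [neg_add_cancel] at h2
  rw [zero_sub] at h3
  linarith

lemma VB_UU (R : ℕ) (h : ZMod N → ℝ) (k : ZMod N) :
    VB R (UU R h) k = (∑ i ∈ Finset.range R, VB R h (k + (i : ZMod N))) / R := by
  unfold VB UU
  rw [Finset.sum_comm, Finset.sum_div]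
  refine Finset.sum_congr rfl fun j _ => ?_
  rw [mul_div_assoc', Finset.mul_sum]
  congr 1
  refine Finset.sum_congr rfl fun i _ => ?_
  have : k - (j : ZMod N) + (i : ZMod N) = k + (i : ZMod N) - (j : ZMod N) := by ring
  rw [this]

/-! ### second moments of the test functions -/

lemma cast_inj {R : ℕ} (hR : R ≤ N) (i j : ℕ) (hi : i < R) (hj : j < R)
    (h : (i : ZMod N) = (j : ZMod N)) : i = j := by
  rw [ZMod.natCast_eq_natCast_iff'] at h
  rwa [Nat.mod_eq_of_lt (by omega), Nat.mod_eq_of_lt (by omega)] at h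

lemma Av_UU_sq (R : ℕ) (hR : 0 < R) (hRN : R ≤ N) (k : ZMod N) :
    Av (fun ω : Om N T => (UU R (sr ω) k) ^ 2) = 1 / R := by
  have hR' : (R : ℝ) ≠ 0 := by positivity
  have e : ∀ ω : Om N T, (UU R (sr ω) k) ^ 2 =
      (1 / (R : ℝ) ^ 2) * (∑ i ∈ Finset.range R, 1 * sr ω (k + (i : ZMod N))) ^ 2 := by
    intro ω
    unfold UU
    simp only [one_mul]
    field_simp
  rw [Av_congr _ _ e, Av_mul_left, Av_lin_sq R (fun _ => 1) (fun i => k + (i : ZMod N))]
  · simp only [one_pow, Finset.sum_const, Finset.card_range, nsmul_eq_mul, mul_one]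
    field_simp
  · intro i hi j hj h
    exact cast_inj hRN i j hi hj (add_left_cancel h)

lemma Av_UB_sq (R : ℕ) (hR : 0 < R) (hRN : R ≤ N) (k : ZMod N) :
    Av (fun ω : Om N T => (UB R (sr ω) k) ^ 2) = 1 / R := by
  have hR' : (R : ℝ) ≠ 0 := by positivity
  have e : ∀ ω : Om N T, (UB R (sr ω) k) ^ 2 =
      (1 / (R : ℝ) ^ 2) * (∑ i ∈ Finset.range R, 1 * sr ω (k - (i : ZMod N))) ^ 2 := by
    intro ω
    unfold UB
    simp only [one_mul]
    field_simp
  rw [Av_congr _ _ e, Av_mul_left, Av_lin_sq R (fun _ => 1) (fun i => k - (i : ZMod N))]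
  · simp only [one_pow, Finset.sum_const, Finset.card_range, nsmul_eq_mul, mul_one]
    field_simp
  · intro i hi j hj h
    exact cast_inj hRN i j hi hj (sub_right_injective h)

lemma Av_UBUU_sq (R : ℕ) (hR : 0 < R) (hRN : R ≤ N) (k : ZMod N) :
    Av (fun ω : Om N T => (UB R (UU R (sr ω)) k) ^ 2) ≤ 1 / R := by
  have hR' : (0 : ℝ) < R := by positivity
  have e : ∀ ω : Om N T, (UB R (UU R (sr ω)) k) ^ 2 =
      (1 / (R : ℝ) ^ 2) * (∑ i ∈ Finset.range R, UU R (sr ω) (k - (i : ZMod N))) ^ 2 := by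
    intro ω
    conv_lhs => unfold UB
    field_simp
  rw [Av_congr _ _ e, Av_mul_left]
  have h := Av_avg_sq (T := T) R (fun i (ω : Om N T) => UU R (sr ω) (k - (i : ZMod N))) (1 / R)
    (fun i _ => (Av_UU_sq R hR hRN _).le)
  calc (1 / (R : ℝ) ^ 2) * _ ≤ (1 / (R : ℝ) ^ 2) * ((R : ℝ) ^ 2 * (1 / R)) :=
        mul_le_mul_of_nonneg_left h (by positivity)
    _ = 1 / R := by field_simp

lemma Av_VB_sq (R : ℕ) (hR : 0 < R) (hRN : R ≤ N) (k : ZMod N) :
    Av (fun ω : Om N T => (VB R (sr ω) k) ^ 2) ≤ R := by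
  have hR' : (0 : ℝ) < R := by positivity
  unfold VB
  rw [Av_lin_sq R (wt R) (fun i => k - (i : ZMod N))]
  · have : ∀ i ∈ Finset.range R, wt R i ^ 2 ≤ 1 := by
      intro i hi
      rw [Finset.mem_range] at hi
      have hi' : (i : ℝ) + 1 ≤ R := by exact_mod_cast hi
      have h0 : 0 ≤ wt R i := by unfold wt; apply div_nonneg <;> linarith
      have h1 : wt R i ≤ 1 := by
        unfold wt; rw [div_le_one hR']; linarith [Nat.cast_nonneg (α := ℝ) i]
      nlinarith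
    calc ∑ i ∈ Finset.range R, wt R i ^ 2 ≤ ∑ _i ∈ Finset.range R, (1 : ℝ) :=
          Finset.sum_le_sum this
      _ = R := by simp
  · intro i hi j hj h
    exact cast_inj hRN i j hi hj (sub_right_injective h)

lemma Av_GG_sq (R : ℕ) (hR : 0 < R) (hRN : R ≤ N) (k : ZMod N) :
    Av (fun ω : Om N T => (GG R (sr ω) k) ^ 2) ≤ 4 * R := by
  have hR' : (0 : ℝ) < R := by positivity
  have e : ∀ ω : Om N T, (GG R (sr ω) k) ^ 2 =
      (VB R (sr ω) k - VB R (UU R (sr ω)) k) ^ 2 := by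
    intro ω
    unfold GG
    rw [VB_sub]
  rw [Av_congr _ _ e]
  refine (Av_sub_sq_le _ _).trans ?_
  have h1 := Av_VB_sq (T := T) R hR hRN k
  have h2 : Av (fun ω : Om N T => (VB R (UU R (sr ω)) k) ^ 2) ≤ R := by
    have e : ∀ ω : Om N T, (VB R (UU R (sr ω)) k) ^ 2 =
        (1 / (R : ℝ) ^ 2) * (∑ i ∈ Finset.range R, VB R (sr ω) (k + (i : ZMod N))) ^ 2 := by
      intro ω
      rw [VB_UU]
      field_simp
    rw [Av_congr _ _ e, Av_mul_left]
    have h := Av_avg_sq (T := T) R (fun i (ω : Om N T) => VB R (sr ω) (k + (i : ZMod N))) R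
      (fun i _ => Av_VB_sq R hR hRN _)
    calc (1 / (R : ℝ) ^ 2) * _ ≤ (1 / (R : ℝ) ^ 2) * ((R : ℝ) ^ 2 * R) :=
          mul_le_mul_of_nonneg_left h (by positivity)
      _ = R := by field_simp
  linarith

/-! ### the process -/

/-- coin sign -/
noncomputable def eps (s : ℕ) (ω : Om N T) : ℝ := if ext ω.2.2 s = true then 1 else -1

lemma eps_sq (s : ℕ) (ω : Om N T) : eps s ω ^ 2 = 1 := by
  unfold eps; split_ifs <;> norm_num

lemma eps_flipc_same (s : ℕ) (hs : s < T) (ω : Om N T) : eps s (flipc s ω) = - eps s ω := by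
  unfold eps
  rw [ext_flipc_same s hs]
  cases ext ω.2.2 s <;> simp

lemma eps_flipc_ne (s i : ℕ) (hi : i ≠ s) (ω : Om N T) : eps i (flipc s ω) = eps i ω := by
  unfold eps
  rw [ext_flipc_ne s i hi]

/-- the test function -/
noncomputable def ff (R : ℕ) (ω : Om N T) : ℝ := FF R (sr ω) 0

/-- forward gradient -/
noncomputable def g1 (R : ℕ) (ω : Om N T) : ℝ :=
  (FF R (sr ω) 0 - FF R (sr ω) ((sg (ω.2.1 0) : ℤ) : ZMod N)) / 2

/-- backward gradient -/
noncomputable def g2 (R : ℕ) (ω : Om N T) : ℝ :=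
  (FF R (sr ω) 0 - FF R (sr ω) (-((sg (ω.2.1 0) : ℤ) : ZMod N))) / 2

/-- the average -/
noncomputable def av (R : ℕ) (ω : Om N T) : ℝ :=
  UU R (sr ω) 0 + UB R (sr ω) 0 - UB R (UU R (sr ω)) 0

lemma FF_shift (R : ℕ) (h : ZMod N → ℝ) (k a : ZMod N) :
    FF R (fun l => h (l + a)) k = FF R h (k + a) := by
  unfold FF
  rw [← VB_shift]
  congr 2
  funext l
  unfold VV
  refine Finset.sum_congr rfl fun i _ => ?_
  have : l + (i : ZMod N) + a = l + a + (i : ZMod N) := by ring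
  simp only [this]

lemma g1_eq (R : ℕ) (ω : Om N T) : g1 R ω = (ff R ω - ff R (stepEnv false ω)) / 2 := by
  have e : sr (stepEnv false ω) = fun k => sr ω (k + ((sg (ω.2.1 0) : ℤ) : ZMod N)) := by
    funext k
    simp [sr, stepEnv]
  unfold g1 ff
  rw [e, FF_shift, zero_add]

lemma g2_eq (R : ℕ) (ω : Om N T) : g2 R ω = (ff R ω - ff R (stepInv false ω)) / 2 := by
  have e : sr (stepInv false ω) = fun k => sr ω (k + -((sg (ω.2.1 0) : ℤ) : ZMod N)) := by
    funext k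
    simp [sr, stepInv, sub_eq_add_neg]
  unfold g2 ff
  rw [e, FF_shift, zero_add]

lemma g1_add_g2 (R : ℕ) (hR : 0 < R) (ω : Om N T) : g1 R ω + g2 R ω = sr ω 0 - av R ω := by
  have h := FF_poisson R hR (sr ω)
  unfold g1 g2 av
  cases ω.2.1 0
  · simp only [sg_false, Int.cast_neg, Int.cast_one, neg_neg]
    linarith
  · simp only [sg_true, Int.cast_one]
    linarith

lemma g1_sq_le (R : ℕ) (hR : 0 < R) (ω : Om N T) :
    g1 R ω ^ 2 ≤ GG R (sr ω) 0 ^ 2 + GG R (sr ω) (-1) ^ 2 := by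
  have h1 := FF_step R hR (sr ω) 0
  have h2 := FF_step R hR (sr ω) (-1)
  rw [zero_add] at h1
  rw [neg_add_cancel] at h2
  unfold g1
  cases ω.2.1 0
  · simp only [sg_false, Int.cast_neg, Int.cast_one]
    have : (FF R (sr ω) 0 - FF R (sr ω) (-1)) / 2 = - GG R (sr ω) (-1) := by linarith
    rw [this]
    nlinarith [sq_nonneg (GG R (sr ω) 0)]
  · simp only [sg_true, Int.cast_one]
    have : (FF R (sr ω) 0 - FF R (sr ω) 1) / 2 = GG R (sr ω) 0 := by linarith
    rw [this]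
    nlinarith [sq_nonneg (GG R (sr ω) (-1))]

lemma g2_sq_le (R : ℕ) (hR : 0 < R) (ω : Om N T) :
    g2 R ω ^ 2 ≤ GG R (sr ω) 0 ^ 2 + GG R (sr ω) (-1) ^ 2 := by
  have h1 := FF_step R hR (sr ω) 0
  have h2 := FF_step R hR (sr ω) (-1)
  rw [zero_add] at h1
  rw [neg_add_cancel] at h2
  unfold g2
  cases ω.2.1 0
  · simp only [sg_false, Int.cast_neg, Int.cast_one, neg_neg]
    have : (FF R (sr ω) 0 - FF R (sr ω) 1) / 2 = GG R (sr ω) 0 := by linarith
    rw [this]
    nlinarith [sq_nonneg (GG R (sr ω) (-1))]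
  · simp only [sg_true, Int.cast_one]
    have : (FF R (sr ω) 0 - FF R (sr ω) (-1)) / 2 = - GG R (sr ω) (-1) := by linarith
    rw [this]
    nlinarith [sq_nonneg (GG R (sr ω) 0)]

lemma Av_g1_sq (R : ℕ) (hR : 0 < R) (hRN : R ≤ N) :
    Av (fun ω : Om N T => g1 R ω ^ 2) ≤ 8 * R := by
  refine (Av_mono _ _ (g1_sq_le R hR)).trans ?_
  rw [Av_add]
  linarith [Av_GG_sq (T := T) R hR hRN 0, Av_GG_sq (T := T) R hR hRN (-1)]

lemma Av_g2_sq (R : ℕ) (hR : 0 < R) (hRN : R ≤ N) :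
    Av (fun ω : Om N T => g2 R ω ^ 2) ≤ 8 * R := by
  refine (Av_mono _ _ (g2_sq_le R hR)).trans ?_
  rw [Av_add]
  linarith [Av_GG_sq (T := T) R hR hRN 0, Av_GG_sq (T := T) R hR hRN (-1)]

lemma Av_av_sq (R : ℕ) (hR : 0 < R) (hRN : R ≤ N) :
    Av (fun ω : Om N T => av R ω ^ 2) ≤ 9 / R := by
  have h : ∀ ω : Om N T, av R ω ^ 2 ≤
      3 * (UU R (sr ω) 0 ^ 2 + UB R (sr ω) 0 ^ 2 + UB R (UU R (sr ω)) 0 ^ 2) := by
    intro ω
    unfold av
    nlinarith [sq_nonneg (UU R (sr ω) 0 - UB R (sr ω) 0),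
      sq_nonneg (UU R (sr ω) 0 + UB R (UU R (sr ω)) 0),
      sq_nonneg (UB R (sr ω) 0 + UB R (UU R (sr ω)) 0)]
  refine (Av_mono _ _ h).trans ?_
  rw [Av_mul_left, Av_add, Av_add, Av_UU_sq R hR hRN, Av_UB_sq R hR hRN]
  have := Av_UBUU_sq (T := T) R hR hRN (0 : ZMod N)
  have e : (9 : ℝ) / R = 3 * (1 / R + 1 / R + 1 / R) := by ring
  rw [e]
  linarith

/-- the telescoping identity -/
lemma telescope (R : ℕ) (hR : 0 < R) (ω : Om N T) (n : ℕ) :
    ∑ s ∈ Finset.range n, sr (env s ω) 0 =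
      ∑ s ∈ Finset.range n, av R (env s ω) + ∑ s ∈ Finset.range n, eps s ω * g1 R (env s ω)
      + ∑ s ∈ Finset.range n, eps s ω * g2 R (env (s + 1) ω)
      - g2 R (env n ω) + g2 R (env 0 ω) := by
  induction n with
  | zero => simp
  | succ n ih =>
    rw [Finset.sum_range_succ, Finset.sum_range_succ, Finset.sum_range_succ,
      Finset.sum_range_succ, ih]
    have h1 := g1_add_g2 R hR (env n ω)
    have h2 := env_succ n ω
    unfold eps
    cases hc : ext ω.2.2 n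
    · rw [hc] at h2
      have h3 : g2 R (env (n + 1) ω) = - g1 R (env n ω) := by
        rw [g2_eq, g1_eq, h2, stepInv_stepEnv]
        ring
      simp only [Bool.false_eq_true, if_false]
      rw [h3]
      linarith
    · simp only [if_true]
      linarith

/-! ### orthogonality -/

/-- the environment after `t` steps, starting at time `a` -/
def envFrom (a : ℕ) : ℕ → Om N T → Om N T
  | 0, ω => ω
  | t + 1, ω => stepEnv (ext ω.2.2 (a + t)) (envFrom a t ω)

lemma env_add (a t : ℕ) (ω : Om N T) : env (a + t) ω = envFrom a t (env a ω) := by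
  induction t with
  | zero => rfl
  | succ t ih =>
    show env (a + t + 1) ω = _
    rw [env_succ, ih]
    rfl

lemma stepEnv_flipc (b : Bool) (s : ℕ) (ω : Om N T) :
    stepEnv b (flipc s ω) = flipc s (stepEnv b ω) := by
  cases b <;> rfl

lemma envFrom_flipc (a s t : ℕ) (hs : s < a) (ω : Om N T) :
    envFrom a t (flipc s ω) = flipc s (envFrom a t ω) := by
  induction t with
  | zero => rfl
  | succ t ih =>
    show stepEnv (ext (flipc s ω).2.2 (a + t)) (envFrom a t (flipc s ω)) =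
      flipc s (stepEnv (ext ω.2.2 (a + t)) (envFrom a t ω))
    rw [ih, ext_flipc_ne s (a + t) (by omega), stepEnv_flipc]

lemma env_flipc (s s2 : ℕ) (h : s ≤ s2) (ω : Om N T) :
    env s (flipc s2 ω) = flipc s2 (env s ω) := by
  unfold env
  rw [pos_flipc s2 s h]
  rfl

lemma g1_flipc (R s : ℕ) (ω : Om N T) : g1 R (flipc s ω) = g1 R ω := rfl

lemma g2_flipc (R s : ℕ) (ω : Om N T) : g2 R (flipc s ω) = g2 R ω := rfl

lemma Av_fwd (G : Om N T → ℝ) (hG : ∀ s ω, G (flipc s ω) = G ω) (s1 s2 : ℕ) (h12 : s1 < s2)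
    (h2 : s2 < T) :
    Av (fun ω : Om N T => eps s1 ω * G (env s1 ω) * (eps s2 ω * G (env s2 ω))) = 0 := by
  refine Av_eq_zero_of_odd (flipc s2) (flipc_bij s2) _ fun ω => ?_
  rw [eps_flipc_same s2 h2, eps_flipc_ne s2 s1 (by omega), env_flipc s1 s2 h12.le,
    env_flipc s2 s2 le_rfl, hG, hG]
  ring

lemma Av_bwd (G : Om N T → ℝ) (hG : ∀ s ω, G (flipc s ω) = G ω) (s1 s2 : ℕ) (h12 : s1 < s2)
    (h2 : s2 < T) :
    Av (fun ω : Om N T => eps s1 ω * G (env (s1 + 1) ω) * (eps s2 ω * G (env (s2 + 1) ω))) = 0 := by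
  have e : ∀ ω : Om N T, eps s1 ω * G (env (s1 + 1) ω) * (eps s2 ω * G (env (s2 + 1) ω)) =
      (fun ω' : Om N T => eps s1 ω' * G ω' * (eps s2 ω' * G (envFrom (s1 + 1) (s2 - s1) ω')))
        (env (s1 + 1) ω) := by
    intro ω
    have h3 : s2 + 1 = (s1 + 1) + (s2 - s1) := by omega
    have h4 := env_add (s1 + 1) (s2 - s1) ω
    rw [← h3] at h4
    rw [h4]
    rfl
  rw [Av_congr _ _ e, Av_comp (env (s1 + 1)) (env_bij (s1 + 1))
    (fun ω' : Om N T => eps s1 ω' * G ω' * (eps s2 ω' * G (envFrom (s1 + 1) (s2 - s1) ω')))]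
  refine Av_eq_zero_of_odd (flipc s1) (flipc_bij s1) _ fun ω => ?_
  rw [eps_flipc_same s1 (by omega), eps_flipc_ne s1 s2 (by omega),
    envFrom_flipc (s1 + 1) s1 _ (by omega), hG, hG]
  ring

lemma Av_mart_fwd (G : Om N T → ℝ) (hG : ∀ s ω, G (flipc s ω) = G ω) (n : ℕ) (hn : n ≤ T) :
    Av (fun ω : Om N T => (∑ s ∈ Finset.range n, eps s ω * G (env s ω)) ^ 2) =
      n * Av (fun ω : Om N T => G ω ^ 2) := by
  rw [Av_sq_sum n (fun s ω => eps s ω * G (env s ω))
    fun s1 s2 h12 h2 => Av_fwd G hG s1 s2 h12 (by omega)]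
  have : ∀ s ∈ Finset.range n, Av (fun ω : Om N T => (eps s ω * G (env s ω)) ^ 2) =
      Av (fun ω : Om N T => G ω ^ 2) := by
    intro s _
    rw [← Av_comp (env s) (env_bij s) (fun ω : Om N T => G ω ^ 2)]
    refine Av_congr _ _ fun ω => ?_
    rw [mul_pow, eps_sq, one_mul]
  rw [Finset.sum_congr rfl this, Finset.sum_const, Finset.card_range, nsmul_eq_mul]

lemma Av_mart_bwd (G : Om N T → ℝ) (hG : ∀ s ω, G (flipc s ω) = G ω) (n : ℕ) (hn : n ≤ T) :
    Av (fun ω : Om N T => (∑ s ∈ Finset.range n, eps s ω * G (env (s + 1) ω)) ^ 2) =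
      n * Av (fun ω : Om N T => G ω ^ 2) := by
  rw [Av_sq_sum n (fun s ω => eps s ω * G (env (s + 1) ω))
    fun s1 s2 h12 h2 => Av_bwd G hG s1 s2 h12 (by omega)]
  have : ∀ s ∈ Finset.range n, Av (fun ω : Om N T => (eps s ω * G (env (s + 1) ω)) ^ 2) =
      Av (fun ω : Om N T => G ω ^ 2) := by
    intro s _
    rw [← Av_comp (env (s + 1)) (env_bij (s + 1)) (fun ω : Om N T => G ω ^ 2)]
    refine Av_congr _ _ fun ω => ?_
    rw [mul_pow, eps_sq, one_mul]
  rw [Finset.sum_congr rfl this, Finset.sum_const, Finset.card_range, nsmul_eq_mul]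

/-- second moment of the sum of the signs seen -/
lemma Av_sum_sr (R : ℕ) (hR : 0 < R) (hRN : R ≤ N) (n : ℕ) (hn : n ≤ T) :
    Av (fun ω : Om N T => (∑ s ∈ Finset.range n, sr (env s ω) 0) ^ 2) ≤
      5 * ((n : ℝ) ^ 2 * (9 / R) + n * (8 * R) + n * (8 * R) + 8 * R + 8 * R) := by
  have h : ∀ ω : Om N T, (∑ s ∈ Finset.range n, sr (env s ω) 0) ^ 2 ≤
      5 * ((∑ s ∈ Finset.range n, av R (env s ω)) ^ 2
        + (∑ s ∈ Finset.range n, eps s ω * g1 R (env s ω)) ^ 2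
        + (∑ s ∈ Finset.range n, eps s ω * g2 R (env (s + 1) ω)) ^ 2
        + g2 R (env n ω) ^ 2 + g2 R (env 0 ω) ^ 2) := by
    intro ω
    rw [telescope R hR ω n]
    generalize ∑ s ∈ Finset.range n, av R (env s ω) = a
    generalize ∑ s ∈ Finset.range n, eps s ω * g1 R (env s ω) = b
    generalize ∑ s ∈ Finset.range n, eps s ω * g2 R (env (s + 1) ω) = c
    generalize g2 R (env n ω) = d
    generalize g2 R (env 0 ω) = e
    nlinarith [sq_nonneg (a - b), sq_nonneg (a - c), sq_nonneg (a + d), sq_nonneg (a - e),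
      sq_nonneg (b - c), sq_nonneg (b + d), sq_nonneg (b - e), sq_nonneg (c + d),
      sq_nonneg (c - e), sq_nonneg (d + e)]
  refine (Av_mono _ _ h).trans ?_
  rw [Av_mul_left, Av_add, Av_add, Av_add, Av_add]
  have h1 : Av (fun ω : Om N T => (∑ s ∈ Finset.range n, av R (env s ω)) ^ 2) ≤
      (n : ℝ) ^ 2 * (9 / R) := by
    refine Av_avg_sq n (fun s (ω : Om N T) => av R (env s ω)) (9 / R) fun s _ => ?_
    rw [Av_comp (env s) (env_bij s) (fun ω : Om N T => av R ω ^ 2)]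
    exact Av_av_sq R hR hRN
  have h2 := Av_mart_fwd (N := N) (T := T) (g1 R) (fun s ω => g1_flipc R s ω) n hn
  have h3 := Av_mart_bwd (N := N) (T := T) (g2 R) (fun s ω => g2_flipc R s ω) n hn
  have h4 : Av (fun ω : Om N T => g2 R (env n ω) ^ 2) ≤ 8 * R := by
    rw [Av_comp (env n) (env_bij n) (fun ω : Om N T => g2 R ω ^ 2)]
    exact Av_g2_sq R hR hRN
  have h5 : Av (fun ω : Om N T => g2 R (env 0 ω) ^ 2) ≤ 8 * R := by
    rw [Av_comp (env 0) (env_bij 0) (fun ω : Om N T => g2 R ω ^ 2)]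
    exact Av_g2_sq R hR hRN
  have h6 : (n : ℝ) * Av (fun ω : Om N T => g1 R ω ^ 2) ≤ n * (8 * R) :=
    mul_le_mul_of_nonneg_left (Av_g1_sq R hR hRN) (by positivity)
  have h7 : (n : ℝ) * Av (fun ω : Om N T => g2 R ω ^ 2) ≤ n * (8 * R) :=
    mul_le_mul_of_nonneg_left (Av_g2_sq R hR hRN) (by positivity)
  rw [h2, h3]
  linarith

/-- second moment of the horizontal displacement -/
lemma Av_pos_sq (R : ℕ) (hR : 0 < R) (hRN : R ≤ N) (n : ℕ) (hn : n ≤ T) :
    Av (fun ω : Om N T => ((pos ω n).1 : ℝ) ^ 2) ≤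
      (5 * ((n : ℝ) ^ 2 * (9 / R) + n * (8 * R) + n * (8 * R) + 8 * R + 8 * R) + n) / 2 := by
  have h : ∀ ω : Om N T, ((pos ω n).1 : ℝ) ^ 2 ≤
      (1 / 2) * ((∑ s ∈ Finset.range n, sr (env s ω) 0) ^ 2 +
        (∑ s ∈ Finset.range n, eps s ω * sr (env s ω) 0) ^ 2) := by
    intro ω
    rw [pos_fst_eq]
    have e : ∑ s ∈ Finset.range n, (if ext ω.2.2 s = true then sr (env s ω) 0 else 0) =
        (∑ s ∈ Finset.range n, sr (env s ω) 0 +
          ∑ s ∈ Finset.range n, eps s ω * sr (env s ω) 0) / 2 := by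
      rw [← Finset.sum_add_distrib, Finset.sum_div]
      refine Finset.sum_congr rfl fun s _ => ?_
      unfold eps
      split_ifs <;> ring
    rw [e]
    nlinarith [sq_nonneg (∑ s ∈ Finset.range n, sr (env s ω) 0 -
      ∑ s ∈ Finset.range n, eps s ω * sr (env s ω) 0)]
  refine (Av_mono _ _ h).trans ?_
  rw [Av_mul_left, Av_add]
  have h1 := Av_sum_sr (N := N) R hR hRN n hn
  have h2 := Av_mart_fwd (N := N) (T := T) (fun ω => sr ω 0) (fun s ω => rfl) n hn
  have h3 : Av (fun ω : Om N T => (sr ω 0) ^ 2) = 1 := by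
    have : ∀ ω : Om N T, (sr ω 0) ^ 2 = 1 := fun ω => by rw [sq, sr_sq]
    rw [Av_congr _ _ this, Av_const]
  rw [h3, mul_one] at h2
  linarith

end

/-- **The `t^{3/2}` upper bound in the finite model.** -/
theorem upper32 : ∃ C : ℝ, 0 < C ∧ ∀ (N T : ℕ) [NeZero N], 4 * T + 8 < N → ∀ n ≤ T,
    Av (fun w : Om N T => ((pos w n).1 : ℝ) ^ 2) ≤ C * ((n : ℝ) * Real.sqrt n) := by
  refine ⟨200, by norm_num, fun N T _ hN n hn => ?_⟩
  rcases Nat.eq_zero_or_pos n with rfl | hn0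
  · have : ∀ w : Om N T, ((pos w 0).1 : ℝ) ^ 2 = 0 := by
      intro w; simp [pos]
    rw [Av_congr _ _ this, Av_const]
    simp
  · have hR : 0 < Nat.sqrt n + 1 := by omega
    have hRN : Nat.sqrt n + 1 ≤ N := by
      have := Nat.sqrt_le_self n
      omega
    refine (Av_pos_sq (N := N) (T := T) (Nat.sqrt n + 1) hR hRN n hn).trans ?_
    have hx1 : (1 : ℝ) ≤ Real.sqrt n := by
      rw [Real.one_le_sqrt]
      exact_mod_cast hn0
    have hx2 : Real.sqrt n ^ 2 = n := Real.sq_sqrt (by positivity)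
    have hRle : ((Nat.sqrt n + 1 : ℕ) : ℝ) ≤ 2 * Real.sqrt n := by
      have : ((Nat.sqrt n : ℕ) : ℝ) ≤ Real.sqrt n := Real.nat_sqrt_le_real_sqrt
      push_cast
      linarith
    have hRge : Real.sqrt n ≤ ((Nat.sqrt n + 1 : ℕ) : ℝ) := by
      have := Real.real_sqrt_le_nat_sqrt_succ (a := n)
      push_cast
      exact this
    generalize ((Nat.sqrt n + 1 : ℕ) : ℝ) = R at hRle hRge
    generalize Real.sqrt n = x at hx1 hx2 hRle hRge
    rw [← hx2]
    have hRpos : 0 < R := by linarith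
    have h9 : (x ^ 2) ^ 2 * (9 / R) ≤ 9 * x ^ 3 := by
      rw [mul_div_assoc', div_le_iff₀ hRpos]
      have : x ^ 3 * x ≤ x ^ 3 * R := mul_le_mul_of_nonneg_left hRge (by positivity)
      nlinarith
    have h10 : x ^ 2 * (8 * R) ≤ 16 * x ^ 3 := by
      have : x ^ 2 * R ≤ x ^ 2 * (2 * x) := mul_le_mul_of_nonneg_left hRle (by positivity)
      nlinarith
    have h11 : 8 * R ≤ 16 * x ^ 3 := by
      have : x ≤ x ^ 3 := by nlinarith [sq_nonneg (x - 1)]
      linarith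
    have h12 : x ^ 2 ≤ x ^ 3 := by nlinarith [sq_nonneg x]
    have h13 : (0 : ℝ) ≤ x ^ 3 := by positivity
    nlinarith

end Pool.Agent.Helper70.ManhUpper
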